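import Pool.Agent.Y642.ND.Stm3

/-!
# Project ND: a determinant some of whose rows lie in few cells

Job ND-RDET of helper642. The section `had` is a copy of the section of the same name in
`Pool.Agent.Y185.SR.Ereg`; the expansion of the determinant follows `Pool.Agent.Y109.ND.Det`.
-/

set_option autoImplicit false

open Finset Matrix
open scoped ComplexOrder BigOperators

namespace Pool.Agent.Y657.ND

section had

theorem det_zero_of_diag {α : Type*} [Fintype α] [DecidableEq α] (M : Matrix α α ℂ)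
    (hM : M.PosSemidef) (i : α) (hi : M i i = 0) : M.det = 0 := by
  rw [← Matrix.exists_mulVec_eq_zero_iff]
  refine ⟨Pi.single i 1, ?_, ?_⟩
  · intro h
    have := congrFun h i
    simp at this
  · rw [← hM.dotProduct_mulVec_zero_iff]
    simp only [mulVec_single_one]
    have : star (Pi.single i (1 : ℂ) : α → ℂ) = Pi.single i (1 : ℂ) := by
      ext j
      by_cases h : j = i
      · subst h; simp
      · simp [h]
    rw [this, single_one_dotProduct]
    exact hi

theorem det_le_diag (n : ℕ) : ∀ A : Matrix (Fin n) (Fin n) ℂ, A.PosSemidef →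
    A.det ≤ ∏ i, A i i := by
  induction n with
  | zero => intro A _; simp
  | succ n ih =>
    intro A hA
    let e : Fin n ⊕ Fin 1 ≃ Fin (n + 1) := finSumFinEquiv
    have hM : (A.submatrix e e).PosSemidef := hA.submatrix _
    have hdet : A.det = (A.submatrix e e).det := (Matrix.det_submatrix_equiv_self e A).symm
    have hprod : ∏ i, A i i = ∏ i, (A.submatrix e e) i i :=
      (Equiv.prod_comp e (fun i => A i i)).symm
    rw [hdet, hprod]
    generalize A.submatrix e e = M at hM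
    have hd0 : ∀ i, 0 ≤ M i i := fun i => hM.diag_nonneg
    by_cases h0 : M (Sum.inr 0) (Sum.inr 0) = 0
    · rw [det_zero_of_diag M hM _ h0]
      exact Finset.prod_nonneg (fun i _ => hd0 i)
    · have hpos : 0 < M (Sum.inr 0) (Sum.inr 0) := lt_of_le_of_ne (hd0 _) (Ne.symm h0)
      have hM22 : M.toBlocks₂₂ = Matrix.of (fun _ _ => M (Sum.inr 0) (Sum.inr 0)) := by
        ext i j
        fin_cases i
        fin_cases j
        rfl
      have hM22' : M.toBlocks₂₂ = Matrix.diagonal (fun _ => M (Sum.inr 0) (Sum.inr 0)) := by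
        ext i j
        fin_cases i
        fin_cases j
        simp [toBlocks₂₂]
      have hpd : M.toBlocks₂₂.PosDef := by
        rw [hM22']
        exact Matrix.PosDef.diagonal (fun _ => hpos)
      have hinvt : IsUnit M.toBlocks₂₂ := hpd.isUnit
      let _ : Invertible M.toBlocks₂₂ := hinvt.invertible
      have hM21 : M.toBlocks₂₁ = M.toBlocks₁₂ᴴ := by
        ext i j
        exact (hM.isHermitian.apply _ _).symm
      have hMb : M = fromBlocks M.toBlocks₁₁ M.toBlocks₁₂ M.toBlocks₁₂ᴴ M.toBlocks₂₂ := by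
        rw [← hM21, fromBlocks_toBlocks]
      have hS : (M.toBlocks₁₁ - M.toBlocks₁₂ * (M.toBlocks₂₂)⁻¹ * M.toBlocks₁₂ᴴ).PosSemidef := by
        rw [← Matrix.PosDef.fromBlocks₂₂ _ _ hpd, ← hMb]
        exact hM
      have hE : (M.toBlocks₁₂ * (M.toBlocks₂₂)⁻¹ * M.toBlocks₁₂ᴴ).PosSemidef :=
        hpd.inv.posSemidef.mul_mul_conjTranspose_same _
      have hdet2 : M.det = M (Sum.inr 0) (Sum.inr 0) *
          (M.toBlocks₁₁ - M.toBlocks₁₂ * (M.toBlocks₂₂)⁻¹ * M.toBlocks₁₂ᴴ).det := by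
        have h1 := Matrix.det_fromBlocks₂₂ M.toBlocks₁₁ M.toBlocks₁₂ M.toBlocks₁₂ᴴ M.toBlocks₂₂
        rw [← hMb] at h1
        rw [h1, Matrix.invOf_eq_nonsing_inv]
        congr 1
        rw [hM22', det_diagonal]
        simp
      rw [hdet2, Fintype.prod_sum_type, mul_comm]
      simp only [Fin.prod_univ_one]
      apply mul_le_mul_of_nonneg_right _ (hd0 _)
      refine le_trans (ih _ hS) ?_
      apply Finset.prod_le_prod
      · intro i _
        exact hS.diag_nonneg
      · intro i _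
        rw [Matrix.sub_apply]
        exact sub_le_self _ hE.diag_nonneg


theorem hadamard {N : ℕ} (W : Matrix (Fin N) (Fin N) ℂ) :
    ‖W.det‖ ^ 2 ≤ ∏ i, ∑ j, ‖W i j‖ ^ 2 := by
  have hps : (W * Wᴴ).PosSemidef := Matrix.posSemidef_self_mul_conjTranspose W
  have h1 := det_le_diag N (W * Wᴴ) hps
  have h2 : (W * Wᴴ).det = ((‖W.det‖ ^ 2 : ℝ) : ℂ) := by
    rw [Matrix.det_mul, Matrix.det_conjTranspose, RCLike.star_def, Complex.mul_conj,
      Complex.normSq_eq_norm_sq]
  have h3 : ∏ i, (W * Wᴴ) i i = ((∏ i, ∑ j, ‖W i j‖ ^ 2 : ℝ) : ℂ) := by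
    rw [Complex.ofReal_prod]
    refine Finset.prod_congr rfl fun i _ => ?_
    rw [Matrix.mul_apply, Complex.ofReal_sum]
    refine Finset.sum_congr rfl fun j _ => ?_
    rw [Matrix.conjTranspose_apply, RCLike.star_def, Complex.mul_conj,
      Complex.normSq_eq_norm_sq]
  rw [h2, h3] at h1
  exact_mod_cast h1

end had

/-- geometric sums over a box -/
theorem box_sum (n B : ℕ) :
    ∑ μ : Fin n → Fin (B + 1), (1 / 2 : ℝ) ^ (∑ j, (μ j : ℕ)) ≤ 2 ^ n := by
  have h1 : ∑ μ : Fin n → Fin (B + 1), (1 / 2 : ℝ) ^ (∑ j, (μ j : ℕ)) =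
      ∏ _j : Fin n, ∑ a : Fin (B + 1), (1 / 2 : ℝ) ^ (a : ℕ) := by
    rw [Finset.prod_univ_sum, Fintype.piFinset_univ]
    refine Finset.sum_congr rfl fun μ _ => ?_
    rw [Finset.prod_pow_eq_pow_sum]
  have h2 : ∑ a : Fin (B + 1), (1 / 2 : ℝ) ^ (a : ℕ) ≤ 2 := by
    rw [Fin.sum_univ_eq_sum_range (fun a => (1 / 2 : ℝ) ^ a)]
    have h3 : ∀ m : ℕ, ∑ a ∈ range m, (1 / 2 : ℝ) ^ a ≤ 2 - 2 * (1 / 2 : ℝ) ^ m := by
      intro m
      induction m with
      | zero => norm_num
      | succ m ih =>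
        rw [Finset.sum_range_succ, pow_succ]
        linarith
    have h4 := h3 (B + 1)
    have h5 : (0 : ℝ) ≤ (1 / 2 : ℝ) ^ (B + 1) := by positivity
    linarith
  rw [h1, Finset.prod_const, Finset.card_univ, Fintype.card_fin]
  exact pow_le_pow_left₀ (Finset.sum_nonneg fun a _ => by positivity) h2 n

/-- the bound for one term -/
theorem term_bound (D : ℕ) (V : Matrix (Fin D) (Fin D) ℂ) (b : Fin D → ℝ) (hb : ∀ i, 0 ≤ b i)
    (h : ∀ i k, ‖V i k‖ ≤ b i) : ‖V.det‖ ≤ Real.sqrt ((D : ℝ) ^ D) * ∏ i, b i := by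
  have h1 := hadamard V
  have h2 : ∏ i, ∑ j, ‖V i j‖ ^ 2 ≤ ∏ i : Fin D, ((D : ℝ) * b i ^ 2) := by
    refine Finset.prod_le_prod (fun i _ => Finset.sum_nonneg fun j _ => by positivity)
      fun i _ => ?_
    calc ∑ j, ‖V i j‖ ^ 2 ≤ ∑ _j : Fin D, b i ^ 2 :=
          Finset.sum_le_sum fun j _ => pow_le_pow_left₀ (norm_nonneg _) (h i j) 2
      _ = (D : ℝ) * b i ^ 2 := by
          rw [Finset.sum_const, Finset.card_univ, Fintype.card_fin, nsmul_eq_mul]
  have h3 : ∏ i : Fin D, ((D : ℝ) * b i ^ 2) = (D : ℝ) ^ D * (∏ i, b i) ^ 2 := by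
    rw [Finset.prod_mul_distrib, Finset.prod_const, Finset.card_univ, Fintype.card_fin,
      Finset.prod_pow]
  have h4 : ‖V.det‖ ^ 2 ≤ (Real.sqrt ((D : ℝ) ^ D) * ∏ i, b i) ^ 2 := by
    rw [mul_pow, Real.sq_sqrt (by positivity), ← h3]
    exact h1.trans h2
  exact (pow_le_pow_iff_left₀ (norm_nonneg _) (mul_nonneg (Real.sqrt_nonneg _) (Finset.prod_nonneg fun i _ => hb i)) two_ne_zero).1 h4

theorem t : Pool.Agent.Y642.ND.S_RDET := by
  intro D n B W T K cell s p c L hL hs hWT hpc hWN E hE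
  classical
  let Ai : Fin D → Finset (Fin n → Fin (B + 1)) := fun i => if i ∈ T then univ else {fun _ => 0}
  let G : Fin D → (Fin n → Fin (B + 1)) → Fin D → ℂ := fun i μ k =>
    if i ∈ T then (s i : ℂ) * (p i μ * c (cell i) μ k) else W i k
  have hdet : W.det = ∑ r ∈ Fintype.piFinset Ai, (Matrix.of fun i => G i (r i)).det := by
    have e1 : (W : Fin D → Fin D → ℂ) = fun i => ∑ μ ∈ Ai i, G i μ := by
      funext i k
      rw [Finset.sum_apply]
      by_cases hi : i ∈ T
      · simp only [Ai, G, if_pos hi]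
        rw [hWT i hi k, Finset.mul_sum]
      · simp only [Ai, G, if_neg hi]
        rw [Finset.sum_singleton]
    have e2 := (Matrix.detRowAlternating (R := ℂ) (n := Fin D)).toMultilinearMap.map_sum_finset
      G Ai
    have e3 : W.det = (Matrix.detRowAlternating (R := ℂ) (n := Fin D)).toMultilinearMap
        (fun i => ∑ μ ∈ Ai i, G i μ) := by
      rw [← e1]
      rfl
    rw [e3, e2]
    rfl
  let w : Fin D → (Fin n → Fin (B + 1)) → ℝ := fun i μ =>
    if i ∈ T then (1 / 2 : ℝ) ^ (∑ j, (μ j : ℕ)) else 1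
  have hw0 : ∀ i μ, 0 ≤ w i μ := by
    intro i μ
    simp only [w]
    split_ifs
    · positivity
    · exact zero_le_one
  have hS0 : 0 ≤ Real.sqrt ((D : ℝ) ^ D) * ∏ i, s i :=
    mul_nonneg (Real.sqrt_nonneg _) (Finset.prod_nonneg fun i _ => hs i)
  have hterm : ∀ r : Fin D → Fin n → Fin (B + 1), ‖(Matrix.of fun i => G i (r i)).det‖ ≤
      (Real.sqrt ((D : ℝ) ^ D) * ∏ i, s i) * (L ^ T.card * (1 / 2) ^ E) * ∏ i, w i (r i) := by
    intro r
    by_cases hr : ∀ i ∈ T, ∀ i' ∈ T, cell i = cell i' → r i = r i' → i = i'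
    · have hEr := hE (fun i j => (r i j : ℕ)) (by
        intro i hi i' hi' hc hrr
        refine hr i hi i' hi' hc ?_
        funext j
        exact Fin.ext (congrFun hrr j))
      let b : Fin D → ℝ := fun i => s i * (if i ∈ T then L / 4 ^ (∑ j, (r i j : ℕ)) else 1)
      have hb0 : ∀ i, 0 ≤ b i := by
        intro i
        simp only [b]
        refine mul_nonneg (hs i) ?_
        split_ifs
        · positivity
        · exact zero_le_one
      have h1 := term_bound D (Matrix.of fun i => G i (r i)) b hb0 (by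
        intro i k
        show ‖G i (r i) k‖ ≤ b i
        by_cases hi : i ∈ T
        · simp only [G, b, if_pos hi]
          rw [norm_mul, Complex.norm_real, Real.norm_of_nonneg (hs i)]
          exact mul_le_mul_of_nonneg_left (hpc i hi _ k) (hs i)
        · simp only [G, b, if_neg hi]
          rw [mul_one]
          exact hWN i hi k)
      refine h1.trans ?_
      have h2 : ∏ i, b i = (∏ i, s i) * ∏ i ∈ T, (L / 4 ^ (∑ j, (r i j : ℕ))) := by
        simp only [b]
        rw [Finset.prod_mul_distrib, Finset.prod_ite_mem, Finset.univ_inter]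
      have h3 : ∏ i ∈ T, (L / 4 ^ (∑ j, (r i j : ℕ))) = L ^ T.card *
          ((∏ i ∈ T, (1 / 2 : ℝ) ^ (∑ j, (r i j : ℕ))) *
            (1 / 2 : ℝ) ^ (∑ i ∈ T, ∑ j, (r i j : ℕ))) := by
        rw [← Finset.prod_pow_eq_pow_sum, ← Finset.prod_mul_distrib, ← Finset.prod_const,
          ← Finset.prod_mul_distrib]
        refine Finset.prod_congr rfl fun i _ => ?_
        rw [← mul_pow, div_eq_mul_inv, ← inv_pow]
        norm_num
      have h4 : ∏ i, w i (r i) = ∏ i ∈ T, (1 / 2 : ℝ) ^ (∑ j, (r i j : ℕ)) := by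
        simp only [w]
        rw [Finset.prod_ite_mem, Finset.univ_inter]
      have h5 : (1 / 2 : ℝ) ^ (∑ i ∈ T, ∑ j, (r i j : ℕ)) ≤ (1 / 2) ^ E :=
        pow_le_pow_of_le_one (by norm_num) (by norm_num) hEr
      have h6 : 0 ≤ ∏ i ∈ T, (1 / 2 : ℝ) ^ (∑ j, (r i j : ℕ)) :=
        Finset.prod_nonneg fun i _ => by positivity
      rw [h2, h3, h4]
      calc Real.sqrt ((D : ℝ) ^ D) * ((∏ i, s i) * (L ^ T.card *
            ((∏ i ∈ T, (1 / 2 : ℝ) ^ (∑ j, (r i j : ℕ))) *
              (1 / 2 : ℝ) ^ (∑ i ∈ T, ∑ j, (r i j : ℕ)))))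
          = (Real.sqrt ((D : ℝ) ^ D) * ∏ i, s i) * (L ^ T.card *
            ((∏ i ∈ T, (1 / 2 : ℝ) ^ (∑ j, (r i j : ℕ))) *
              (1 / 2 : ℝ) ^ (∑ i ∈ T, ∑ j, (r i j : ℕ)))) := by ring
        _ ≤ (Real.sqrt ((D : ℝ) ^ D) * ∏ i, s i) * (L ^ T.card *
            ((∏ i ∈ T, (1 / 2 : ℝ) ^ (∑ j, (r i j : ℕ))) * (1 / 2) ^ E)) := by
            refine mul_le_mul_of_nonneg_left ?_ hS0
            refine mul_le_mul_of_nonneg_left ?_ (by positivity)
            exact mul_le_mul_of_nonneg_left h5 h6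
        _ = _ := by ring
    · push Not at hr
      obtain ⟨i, hi, i', hi', hc, hrr, hne⟩ := hr
      have h0 : (Matrix.of fun i => G i (r i)).det = 0 := by
        have e1 : (Matrix.of fun i => G i (r i)) = Matrix.of fun i k =>
            (if i ∈ T then (s i : ℂ) * p i (r i) else 1) *
              (Matrix.of fun i k => if i ∈ T then c (cell i) (r i) k else W i k) i k := by
          ext a k
          show G a (r a) k = (if a ∈ T then (s a : ℂ) * p a (r a) else 1) *
              (if a ∈ T then c (cell a) (r a) k else W a k)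
          by_cases ha : a ∈ T
          · simp only [G, if_pos ha]
            ring
          · simp only [G, if_neg ha]
            ring
        rw [e1, Matrix.det_mul_column]
        have e2 : (Matrix.of fun i k => if i ∈ T then c (cell i) (r i) k else W i k).det = 0 := by
          refine Matrix.det_zero_of_row_eq hne ?_
          funext k
          show (if i ∈ T then c (cell i) (r i) k else W i k) =
            (if i' ∈ T then c (cell i') (r i') k else W i' k)
          rw [if_pos hi, if_pos hi', hc, hrr]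
        rw [e2, mul_zero]
      rw [h0, norm_zero]
      refine mul_nonneg (mul_nonneg hS0 (by positivity)) (Finset.prod_nonneg fun i _ => hw0 i _)
  have hsum : ∑ r ∈ Fintype.piFinset Ai, ∏ i, w i (r i) ≤ (2 ^ n) ^ T.card := by
    rw [← Finset.prod_univ_sum]
    have e1 : ∏ i, ∑ μ ∈ Ai i, w i μ =
        ∏ i, (if i ∈ T then ∑ μ : Fin n → Fin (B + 1), (1 / 2 : ℝ) ^ (∑ j, (μ j : ℕ)) else 1) := by
      refine Finset.prod_congr rfl fun i _ => ?_
      by_cases hi : i ∈ T
      · simp only [Ai, w, if_pos hi]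
      · simp only [Ai, w, if_neg hi]
        rw [Finset.sum_singleton]
    rw [e1, Finset.prod_ite_mem, Finset.univ_inter, Finset.prod_const]
    exact pow_le_pow_left₀ (Finset.sum_nonneg fun μ _ => by positivity) (box_sum n B) _
  rw [hdet]
  calc ‖∑ r ∈ Fintype.piFinset Ai, (Matrix.of fun i => G i (r i)).det‖
      ≤ ∑ r ∈ Fintype.piFinset Ai, ‖(Matrix.of fun i => G i (r i)).det‖ := norm_sum_le _ _
    _ ≤ ∑ r ∈ Fintype.piFinset Ai, (Real.sqrt ((D : ℝ) ^ D) * ∏ i, s i) *
          (L ^ T.card * (1 / 2) ^ E) * ∏ i, w i (r i) := Finset.sum_le_sum fun r _ => hterm r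
    _ = (Real.sqrt ((D : ℝ) ^ D) * ∏ i, s i) * (L ^ T.card * (1 / 2) ^ E) *
          ∑ r ∈ Fintype.piFinset Ai, ∏ i, w i (r i) := by rw [Finset.mul_sum]
    _ ≤ (Real.sqrt ((D : ℝ) ^ D) * ∏ i, s i) * (L ^ T.card * (1 / 2) ^ E) *
          (2 ^ n) ^ T.card := mul_le_mul_of_nonneg_left hsum (mul_nonneg hS0 (by positivity))
    _ = (1 / 2) ^ E * (2 ^ n * L) ^ T.card * Real.sqrt ((D : ℝ) ^ D) * ∏ i, s i := by
          rw [mul_pow]
          ring

end Pool.Agent.Y657.ND
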